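import Mathlib

/-!
# MP_f6fd33_lc: abstract part of the selection argument

States with substates, free amalgams, promises and kicks; classes `K i` of states over a chain of
bases, decided values. `dl i T a y`: the value `y` of the pair `a` is decided at the index `i` in
the state `T`.
-/

set_option linter.unusedVariables false
set_option linter.unusedSectionVars false

namespace UN

open Set

/-- systems of states (data): `τ` states, `Λ` labels, `ρ` reals -/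
structure Sys (τ Λ ρ : Type*) [PartialOrder τ] where
  /-- the labels of a state -/
  lab : τ → Set Λ
  /-- the reals of a state -/
  R : τ → Set ρ
  /-- `PL T l S a b`: the label `l` of `T` with the support `S` promises the pair `(a, b)` -/
  PL : τ → Λ → τ → ρ → ρ → Prop
  /-- `Kick T a b`: it is secured in `T` that `b` is not in the section of `a` -/
  Kick : τ → ρ → ρ → Prop
  /-- a choice function -/
  c : τ → Set ρ → ρ

/-- systems of states (laws) -/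
structure Sys.Ok {τ Λ ρ : Type*} [PartialOrder τ] (D : Sys τ Λ ρ) : Prop where
  labMono : ∀ {S T}, S ≤ T → D.lab S ⊆ D.lab T
  RMono : ∀ {S T}, S ≤ T → D.R S ⊆ D.R T
  sub : ∀ {T S S'}, S ≤ T → S' ≤ T → D.lab S ⊆ D.lab S' → S ≤ S'
  meet : ∀ {T S S'}, S ≤ T → S' ≤ T → ∃ M, M ≤ S ∧ M ≤ S' ∧ D.lab M = D.lab S ∩ D.lab S'
  join : ∀ {T S S'}, S ≤ T → S' ≤ T → ∃ J, J ≤ T ∧ S ≤ J ∧ S' ≤ J ∧ D.lab J = D.lab S ∪ D.lab S'
  RMeet : ∀ {T S S' M}, S ≤ T → S' ≤ T → M ≤ S → M ≤ S' → D.lab M = D.lab S ∩ D.lab S' →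
    ∀ x, x ∈ D.R S → x ∈ D.R S' → x ∈ D.R M
  plLab : ∀ {T l S a b}, D.PL T l S a b → l ∈ D.lab T ∧ l ∉ D.lab S ∧ S ≤ T ∧ a ∈ D.R S ∧ b ∈ D.R S
  plMono : ∀ {T T' l S a b}, T ≤ T' → l ∈ D.lab T → (D.PL T l S a b ↔ D.PL T' l S a b)
  kickMono : ∀ {T T' a b}, T ≤ T' → D.Kick T a b → D.Kick T' a b
  cMem : ∀ {T U}, U ⊆ D.R T → U.Nonempty → D.c T U ∈ U

/-- a chain of bases with external decisions (data) -/
structure Chn {τ Λ ρ : Type*} [PartialOrder τ] (D : Sys τ Λ ρ) (ι : Type*) where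
  /-- `base i B`: `B` is a version of the base with the index `i` -/
  base : ι → τ → Prop
  /-- the labels of the base -/
  bl : ι → Set Λ
  /-- external indices -/
  isX : ι → Prop
  /-- `Ex i B a y`: at the index `i` the value `y` of the pair `a` is decided externally -/
  Ex : ι → τ → ρ → ρ → Prop

/-- free amalgams -/
structure Amal {τ Λ ρ : Type*} [PartialOrder τ] (D : Sys τ Λ ρ) (S T1 T2 W : τ) : Prop where
  s1 : S ≤ T1
  s2 : S ≤ T2
  h1 : T1 ≤ W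
  h2 : T2 ≤ W
  i : D.lab T1 ∩ D.lab T2 = D.lab S
  u : D.lab W = D.lab T1 ∪ D.lab T2

namespace Chn

variable {τ Λ ρ : Type*} [PartialOrder τ] {D : Sys τ Λ ρ}
  {ι : Type*} [LinearOrder ι] [WellFoundedLT ι] (C : Chn D ι)

/-- chains (laws) -/
structure Ok : Prop where
  baseLab : ∀ {i B}, C.base i B → D.lab B = C.bl i
  baseUniq : ∀ {i B B' T}, C.base i B → C.base i B' → B ≤ T → B' ≤ T → B = B'
  baseMono : ∀ {i j B}, i ≤ j → C.base j B → ∃ B', B' ≤ B ∧ C.base i B'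
  exR : ∀ {i B a b}, C.base i B → C.Ex i B a b → a ∈ D.R B ∧ b ∈ D.R B
  exUniq : ∀ {i B a b b'}, C.base i B → C.Ex i B a b → C.Ex i B a b' → b = b'

/-- `T` is a state over the base -/
def Ov (i : ι) (T : τ) : Prop := ∃ B, C.base i B ∧ B ≤ T

/-- the values which cannot be kicked by states in the class `K` -/
def U' (K : τ → Prop) (T : τ) (a : ρ) : Set ρ :=
  {y | y ∈ D.R T ∧ ∀ T', T ≤ T' → K T' → ¬ D.Kick T' a y}

/-- internal pairs with respect to `K` -/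
def Int' (K : τ → Prop) (T : τ) (a : ρ) : Prop := (U' (D := D) K T a).Nonempty ∧
  ∀ T', T ≤ T' → K T' → U' (D := D) K T' a ⊆ D.R T

/-- `S` is the least substate of `T` over the base with `a ∈ R S` -/
def Home (i : ι) (T : τ) (a : ρ) (S : τ) : Prop := S ≤ T ∧ C.Ov i S ∧ a ∈ D.R S ∧
  ∀ S', S' ≤ T → C.Ov i S' → a ∈ D.R S' → S ≤ S'

/-- the new decisions, if `K` is the class and `dd` are the old decisions -/
def dl' (i : ι) (K : τ → Prop) (dd : τ → ρ → ρ → Prop) (T : τ) (a y : ρ) : Prop :=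
  K T ∧ a ∈ D.R T ∧ (∀ y', ¬ dd T a y') ∧
    ((C.isX i ∧ ∃ B, C.base i B ∧ B ≤ T ∧ C.Ex i B a y) ∨
      (¬ C.isX i ∧ Int' (D := D) K T a ∧ ∃ S, C.Home i T a S ∧ y = D.c S (U' (D := D) K T a)))

/-- the class, if `bad` are the forbidden promises -/
def K' (i : ι) (bad : τ → ρ → ρ → Prop) (T : τ) : Prop :=
  C.Ov i T ∧ ∀ l S a y, D.PL T l S a y → ¬ bad S a y

/-- the recursion for the classes and the decisions -/
noncomputable def kd : ι → (τ → Prop) × (τ → ρ → ρ → Prop) :=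
  WellFounded.fix (wellFounded_lt (α := ι)) fun i F =>
    let K := C.K' i fun S a y => ∃ j, ∃ h : j < i, ∃ T, S ≤ T ∧ (F j h).1 T ∧ (F j h).2 T a y
    (K, C.dl' i K fun T a y => ∃ j, ∃ h : j < i, (F j h).2 T a y)

/-- the class with the index `i` -/
noncomputable def K (i : ι) : τ → Prop := (C.kd i).1

/-- the decisions at the index `i` -/
noncomputable def dl (i : ι) : τ → ρ → ρ → Prop := (C.kd i).2

/-- `y` cannot be kicked -/
noncomputable def U (i : ι) (T : τ) (a : ρ) : Set ρ :=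
  {y | y ∈ D.R T ∧ ∀ T', T ≤ T' → C.K i T' → ¬ D.Kick T' a y}

/-- internal pairs -/
def Int (i : ι) (T : τ) (a : ρ) : Prop := (C.U i T a).Nonempty ∧
  ∀ T', T ≤ T' → C.K i T' → C.U i T' a ⊆ D.R T

/-- decided before `i` -/
def dd (i : ι) (T : τ) (a y : ρ) : Prop := ∃ j < i, C.dl j T a y

/-- promising `(a, y)` over `S` is forbidden -/
def BAD (i : ι) (S : τ) (a y : ρ) : Prop := ∃ j < i, ∃ T, S ≤ T ∧ C.K j T ∧ C.dl j T a y

theorem kd_eq (i : ι) : C.kd i =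
    (C.K' i (C.BAD i), C.dl' i (C.K' i (C.BAD i)) (C.dd i)) := by
  have h := WellFounded.fix_eq (wellFounded_lt (α := ι)) (fun i
    (F : (j : ι) → j < i → (τ → Prop) × (τ → ρ → ρ → Prop)) =>
    let K := C.K' i fun S a y => ∃ j, ∃ h : j < i, ∃ T, S ≤ T ∧ (F j h).1 T ∧ (F j h).2 T a y
    ((K, C.dl' i K fun T a y => ∃ j, ∃ h : j < i, (F j h).2 T a y) :
      (τ → Prop) × (τ → ρ → ρ → Prop))) i
  have h2 : C.kd i = _ := h
  rw [h2]
  have e1 : (fun S a y => ∃ j, ∃ h : j < i, ∃ T, S ≤ T ∧ (C.kd j).1 T ∧ (C.kd j).2 T a y) =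
      C.BAD i := by
    funext S a y
    simp only [BAD, K, dl, exists_prop]
  have e2 : (fun T a y => ∃ j, ∃ h : j < i, (C.kd j).2 T a y) = C.dd i := by
    funext T a y
    simp only [dd, dl, exists_prop]
  show (C.K' i (fun S a y => ∃ j, ∃ h : j < i, ∃ T, S ≤ T ∧ (C.kd j).1 T ∧ (C.kd j).2 T a y),
    C.dl' i (C.K' i (fun S a y => ∃ j, ∃ h : j < i, ∃ T, S ≤ T ∧ (C.kd j).1 T ∧ (C.kd j).2 T a y))
      (fun T a y => ∃ j, ∃ h : j < i, (C.kd j).2 T a y)) = _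
  rw [e1, e2]

theorem K_iff (i : ι) (T : τ) :
    C.K i T ↔ C.Ov i T ∧ ∀ l S a y, D.PL T l S a y → ¬ C.BAD i S a y := by
  unfold K
  rw [kd_eq]
  rfl

theorem dl_iff (i : ι) (T : τ) (a y : ρ) : C.dl i T a y ↔
    C.K i T ∧ a ∈ D.R T ∧ (∀ y', ¬ C.dd i T a y') ∧
    ((C.isX i ∧ ∃ B, C.base i B ∧ B ≤ T ∧ C.Ex i B a y) ∨
      (¬ C.isX i ∧ C.Int i T a ∧ ∃ S, C.Home i T a S ∧ y = D.c S (C.U i T a))) := by
  have h : C.K i = C.K' i (C.BAD i) := by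
    unfold K
    rw [kd_eq]
  unfold dl
  rw [kd_eq]
  show C.dl' i (C.K' i (C.BAD i)) (C.dd i) T a y ↔ _
  rw [← h]
  rfl

theorem dl_X {i : ι} (hX : C.isX i) (T : τ) (a y : ρ) : C.dl i T a y ↔
    C.K i T ∧ a ∈ D.R T ∧ (∀ y', ¬ C.dd i T a y') ∧ ∃ B, C.base i B ∧ B ≤ T ∧ C.Ex i B a y := by
  rw [dl_iff]
  simp only [hX, not_true_eq_false, false_and, or_false, true_and]

theorem dl_I {i : ι} (hX : ¬ C.isX i) (T : τ) (a y : ρ) : C.dl i T a y ↔
    C.K i T ∧ a ∈ D.R T ∧ (∀ y', ¬ C.dd i T a y') ∧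
      C.Int i T a ∧ ∃ S, C.Home i T a S ∧ y = D.c S (C.U i T a) := by
  rw [dl_iff]
  simp only [hX, not_false_eq_true, false_and, false_or, true_and]

/-- amalgamation for the index `i` -/
structure AM (i : ι) : Prop where
  kick : ∀ S T1 T' a y, S ≤ T1 → S ≤ T' → C.Ov i S → C.K i T' → a ∈ D.R S → y ∈ D.R S →
    D.Kick T' a y → ∃ T2 W, Amal D S T1 T2 W ∧ C.K i T2 ∧ D.Kick T2 a y
  safe : ∀ S T1 T' a, S ≤ T1 → S ≤ T' → C.Ov i S → C.K i T' → a ∈ D.R S →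
    (∃ y ∈ C.U i T' a, y ∉ D.R S) → ∃ T2 W, Amal D S T1 T2 W ∧ C.K i T2 ∧
      ∃ y ∈ C.U i T2 a, y ∉ D.R S

/-- no new decisions -/
def Stable (i : ι) : Prop := ∀ T, C.K i T → ∀ a ∈ D.R T, (∃ y, C.dd i T a y) ∨ ¬ C.Int i T a

/-- the values decided externally in `[z, i)` are not computed from labels in `P` -/
def Free (i : ι) (P : Set Λ) (z : ι) : Prop := ∀ η, z ≤ η → η < i → C.isX η → ∀ B, C.base η B →
  ∀ X, X ≤ B → D.lab X ⊆ P → ∀ a y, C.Ex η B a y → y ∉ D.R X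

end Chn

namespace Chn

variable {τ Λ ρ : Type*} [PartialOrder τ] [WellFoundedLT τ] {D : Sys τ Λ ρ}
  {ι : Type*} [LinearOrder ι] [WellFoundedLT ι] {C : Chn D ι}

theorem Ov.mono {i : ι} {S T : τ} (h : C.Ov i S) (h' : S ≤ T) : C.Ov i T := by
  obtain ⟨B, h1, h2⟩ := h
  exact ⟨B, h1, h2.trans h'⟩

theorem Ov.le (hC : C.Ok) {i j : ι} {T : τ} (h : C.Ov j T) (h' : i ≤ j) : C.Ov i T := by
  obtain ⟨B, h1, h2⟩ := h
  obtain ⟨B', h3, h4⟩ := hC.baseMono h' h1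
  exact ⟨B', h4, h3.trans h2⟩

variable (hD : D.Ok) (hC : C.Ok)
include hD hC

theorem K_over {i : ι} {T : τ} (h : C.K i T) : C.Ov i T := ((C.K_iff i T).1 h).1

theorem K_le {i j : ι} {T : τ} (h : C.K j T) (h' : i ≤ j) : C.K i T := by
  rw [C.K_iff] at h ⊢
  refine ⟨h.1.le hC h', fun l S a y hp hb => h.2 l S a y hp ?_⟩
  obtain ⟨k, hk, r⟩ := hb
  exact ⟨k, hk.trans_le h', r⟩

/-- L0: substates -/
theorem K_sub {i : ι} {S T : τ} (h : C.K i T) (hS : S ≤ T) (ho : C.Ov i S) : C.K i S := by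
  rw [C.K_iff] at h ⊢
  refine ⟨ho, fun l S' a y hp => h.2 l S' a y ?_⟩
  exact (hD.plMono hS (hD.plLab hp).1).1 hp

/-- L1: joins -/
theorem K_join {i : ι} {T1 T2 W : τ} (h1 : C.K i T1) (h2 : C.K i T2) (hw1 : T1 ≤ W) (hw2 : T2 ≤ W)
    (hl : D.lab W = D.lab T1 ∪ D.lab T2) : C.K i W := by
  have h1' := (C.K_iff i T1).1 h1
  have h2' := (C.K_iff i T2).1 h2
  rw [C.K_iff]
  refine ⟨h1'.1.mono hw1, fun l S a y hp => ?_⟩
  have := (hD.plLab hp).1
  rw [hl] at this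
  rcases this with h | h
  · exact h1'.2 l S a y ((hD.plMono hw1 h).2 hp)
  · exact h2'.2 l S a y ((hD.plMono hw2 h).2 hp)

theorem dl_K {i : ι} {T : τ} {a y : ρ} (h : C.dl i T a y) : C.K i T ∧ a ∈ D.R T ∧
    ∀ y', ¬ C.dd i T a y' := by
  by_cases hX : C.isX i
  · obtain ⟨h1, h2, h3, _⟩ := (C.dl_X hX T a y).1 h
    exact ⟨h1, h2, h3⟩
  · obtain ⟨h1, h2, h3, _⟩ := (C.dl_I hX T a y).1 h
    exact ⟨h1, h2, h3⟩

omit hD hC in
theorem Home.uniq {i : ι} {T S S' : τ} {a : ρ} (h : C.Home i T a S) (h' : C.Home i T a S') :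
    S = S' :=
  le_antisymm (h.2.2.2 S' h'.1 h'.2.1 h'.2.2.1) (h'.2.2.2 S h.1 h.2.1 h.2.2.1)

theorem dl_uniq {i : ι} {T : τ} {a y y' : ρ} (h : C.dl i T a y) (h' : C.dl i T a y') : y = y' := by
  by_cases hX : C.isX i
  · obtain ⟨_, _, _, B, b1, b2, b3⟩ := (C.dl_X hX T a y).1 h
    obtain ⟨_, _, _, B', c1, c2, c3⟩ := (C.dl_X hX T a y').1 h'
    obtain rfl := hC.baseUniq b1 c1 b2 c2
    exact hC.exUniq b1 b3 c3
  · obtain ⟨_, _, _, _, S, b1, b2⟩ := (C.dl_I hX T a y).1 h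
    obtain ⟨_, _, _, _, S', c1, c2⟩ := (C.dl_I hX T a y').1 h'
    obtain rfl := b1.uniq c1
    rw [b2, c2]

theorem dl_uniq' {i j : ι} {T : τ} {a y y' : ρ} (h : C.dl i T a y) (h' : C.dl j T a y') :
    i = j ∧ y = y' := by
  rcases lt_trichotomy i j with hij | rfl | hij
  · exact absurd ⟨i, hij, h⟩ ((dl_K hD hC h').2.2 y)
  · exact ⟨rfl, dl_uniq hD hC h h'⟩
  · exact absurd ⟨j, hij, h'⟩ ((dl_K hD hC h).2.2 y')

/-- the home exists -/
theorem home_ex {i : ι} {T : τ} {a : ρ} (ho : C.Ov i T) (ha : a ∈ D.R T) :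
    ∃ S, C.Home i T a S := by
  classical
  let X : Set τ := {S | S ≤ T ∧ C.Ov i S ∧ a ∈ D.R S}
  have hX : X.Nonempty := ⟨T, le_rfl, ho, ha⟩
  obtain ⟨S, hS, hmin⟩ := (wellFounded_lt (α := τ)).has_min X hX
  refine ⟨S, hS.1, hS.2.1, hS.2.2, fun S' h1 h2 h3 => ?_⟩
  obtain ⟨M, m1, m2, m3⟩ := hD.meet hS.1 h1
  have hMR : a ∈ D.R M := hD.RMeet hS.1 h1 m1 m2 m3 a hS.2.2 h3
  have hMo : C.Ov i M := by
    obtain ⟨B, b1, b2⟩ := hS.2.1
    obtain ⟨B', c1, c2⟩ := h2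
    obtain rfl := hC.baseUniq b1 c1 (b2.trans hS.1) (c2.trans h1)
    refine ⟨B, b1, hD.sub (b2.trans hS.1) (m1.trans hS.1) ?_⟩
    rw [m3]
    exact subset_inter (hD.labMono b2) (hD.labMono c2)
  have : ¬ M < S := hmin M ⟨m1.trans hS.1, hMo, hMR⟩
  have : M = S := by
    by_contra hne
    exact this (lt_of_le_of_ne m1 hne)
  rw [← this]
  exact m2

/-- L2a -/
theorem U_inv {i : ι} (hA : C.AM i) {T W : τ} (hT : C.K i T) (hW : C.K i W) (h : T ≤ W) {a y : ρ}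
    (ha : a ∈ D.R T) (hy : y ∈ D.R T) : y ∈ C.U i T a ↔ y ∈ C.U i W a := by
  constructor
  · intro hU
    exact ⟨hD.RMono h hy, fun T' h1 h2 => hU.2 T' (h.trans h1) h2⟩
  · intro hU
    refine ⟨hy, fun T' h1 h2 h3 => ?_⟩
    obtain ⟨T2, W', hm, h4, h5⟩ := hA.kick T W T' a y h h1 (K_over hD hC hT) h2 ha hy h3
    exact hU.2 W' hm.h1 (K_join hD hC hW h4 hm.h1 hm.h2 hm.u) (hD.kickMono hm.h2 h5)

omit hD hC in
theorem Amal_disj (hD : D.Ok) {S T1 T2 W : τ} (hm : Amal D S T1 T2 W) {y : ρ} (h1 : y ∈ D.R T1)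
    (h2 : y ∈ D.R T2) : y ∈ D.R S :=
  hD.RMeet hm.h1 hm.h2 hm.s1 hm.s2 hm.i.symm y h1 h2

/-- L2b -/
theorem Int_inv {i : ι} (hA : C.AM i) {T W : τ} (hT : C.K i T) (hW : C.K i W) (h : T ≤ W) {a : ρ}
    (ha : a ∈ D.R T) : (C.Int i T a ↔ C.Int i W a) ∧ (C.Int i W a → C.U i T a = C.U i W a) := by
  have h1 : C.Int i T a → C.U i T a = C.U i W a := by
    intro hI
    ext y
    constructor
    · intro hy
      exact (U_inv hD hC hA hT hW h ha hy.1).1 hy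
    · intro hy
      exact (U_inv hD hC hA hT hW h ha (hI.2 W h hW hy)).2 hy
  have h2 : C.Int i W a → C.Int i T a := by
    intro hI
    have h3 : ∀ T', T ≤ T' → C.K i T' → C.U i T' a ⊆ D.R T := by
      intro T' t1 t2 y hy
      by_contra hn
      obtain ⟨T2, W', hm, h4, y2, h5, h6⟩ := hA.safe T W T' a h t1 (K_over hD hC hT) t2 ha ⟨y, hy, hn⟩
      have hW' : C.K i W' := K_join hD hC hW h4 hm.h1 hm.h2 hm.u
      have h7 : y2 ∈ C.U i W' a := (U_inv hD hC hA h4 hW' hm.h2 (hD.RMono hm.s2 ha) h5.1).1 h5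
      exact h6 (Amal_disj hD hm (hI.2 W' hm.h1 hW' h7) h5.1)
    refine ⟨?_, h3⟩
    obtain ⟨y, hy⟩ := hI.1
    exact ⟨y, (U_inv hD hC hA hT hW h ha (h3 W h hW hy)).2 hy⟩
  refine ⟨⟨fun hI => ?_, h2⟩, fun hI => h1 (h2 hI)⟩
  obtain ⟨y, hy⟩ := hI.1
  refine ⟨⟨y, (U_inv hD hC hA hT hW h ha hy.1).1 hy⟩, fun T' t1 t2 => ?_⟩
  exact (hI.2 T' (h.trans t1) t2).trans (hD.RMono h)

omit hD hC in
theorem Home.inv (hD : D.Ok) (hC : C.Ok) {i : ι} {T W S : τ} {a : ρ} (hT : C.Ov i T) (h : T ≤ W) (ha : a ∈ D.R T) :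
    C.Home i T a S ↔ C.Home i W a S := by
  constructor
  · rintro ⟨h1, h2, h3, h4⟩
    refine ⟨h1.trans h, h2, h3, fun S' s1 s2 s3 => ?_⟩
    obtain ⟨M, m1, m2, m3⟩ := hD.meet (h1.trans h) s1
    have hMR : a ∈ D.R M := hD.RMeet (h1.trans h) s1 m1 m2 m3 a h3 s3
    have hMo : C.Ov i M := by
      obtain ⟨B, b1, b2⟩ := h2
      obtain ⟨B', c1, c2⟩ := s2
      obtain rfl := hC.baseUniq b1 c1 (b2.trans (h1.trans h)) (c2.trans s1)
      refine ⟨B, b1, hD.sub (b2.trans (h1.trans h)) (m1.trans (h1.trans h)) ?_⟩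
      rw [m3]
      exact subset_inter (hD.labMono b2) (hD.labMono c2)
    exact (h4 M (m1.trans h1) hMo hMR).trans m2
  · rintro ⟨h1, h2, h3, h4⟩
    exact ⟨h4 T h hT ha, h2, h3, fun S' s1 s2 s3 => h4 S' (s1.trans h) s2 s3⟩

/-- the decided value is in the state -/
theorem dl_R {i : ι} (hA : C.AM i) {T : τ} {a y : ρ} (h : C.dl i T a y) : y ∈ D.R T := by
  by_cases hX : C.isX i
  · obtain ⟨_, _, _, B, b1, b2, b3⟩ := (C.dl_X hX T a y).1 h
    exact hD.RMono b2 (hC.exR b1 b3).2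
  · obtain ⟨h1, h2, _, hI, S, b1, b2⟩ := (C.dl_I hX T a y).1 h
    have hS : C.K i S := K_sub hD hC h1 b1.1 b1.2.1
    obtain ⟨c1, c2⟩ := Int_inv hD hC hA hS h1 b1.1 b1.2.2.1
    have hsub : C.U i T a ⊆ D.R S := by
      rw [← c2 hI]
      exact fun y hy => hy.1
    rw [b2]
    exact (hD.cMem hsub hI.1).elim fun h _ => h

/-- the decided value of an internal pair cannot be kicked -/
theorem dl_U {i : ι} (hA : C.AM i) {T : τ} {a y : ρ} (hX : ¬ C.isX i) (h : C.dl i T a y) :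
    y ∈ C.U i T a := by
  obtain ⟨h1, h2, _, hI, S, b1, b2⟩ := (C.dl_I hX T a y).1 h
  have hS : C.K i S := K_sub hD hC h1 b1.1 b1.2.1
  obtain ⟨c1, c2⟩ := Int_inv hD hC hA hS h1 b1.1 b1.2.2.1
  have hsub : C.U i T a ⊆ D.R S := by
    rw [← c2 hI]
    exact fun y hy => hy.1
  rw [b2]
  exact hD.cMem hsub hI.1

/-- L2: invariance of the decisions -/
theorem dl_inv (i : ι) (hA : ∀ j ≤ i, C.AM j) : ∀ {T W : τ}, C.K i T → C.K i W → T ≤ W →
    ∀ {a y : ρ}, a ∈ D.R T → (C.dl i T a y ↔ C.dl i W a y) := by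
  induction i using WellFoundedLT.induction with
  | _ i ih =>
    intro T W hT hW h a y ha
    have hdd : ∀ y', C.dd i T a y' ↔ C.dd i W a y' := by
      intro y'
      constructor
      · rintro ⟨j, hj, hd⟩
        exact ⟨j, hj, (ih j hj (fun k hk => hA k (hk.trans hj.le)) (K_le hD hC hT hj.le)
          (K_le hD hC hW hj.le) h ha).1 hd⟩
      · rintro ⟨j, hj, hd⟩
        exact ⟨j, hj, (ih j hj (fun k hk => hA k (hk.trans hj.le)) (K_le hD hC hT hj.le)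
          (K_le hD hC hW hj.le) h ha).2 hd⟩
    have hdd' : (∀ y', ¬ C.dd i T a y') ↔ ∀ y', ¬ C.dd i W a y' :=
      forall_congr' fun y' => not_congr (hdd y')
    by_cases hX : C.isX i
    · rw [C.dl_X hX T a y, C.dl_X hX W a y, hdd']
      constructor
      · rintro ⟨_, _, h3, B, b1, b2, b3⟩
        exact ⟨hW, hD.RMono h ha, h3, B, b1, b2.trans h, b3⟩
      · rintro ⟨_, _, h3, B, b1, b2, b3⟩
        refine ⟨hT, ha, h3, B, b1, ?_, b3⟩
        obtain ⟨B', c1, c2⟩ := K_over hD hC hT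
        obtain rfl := hC.baseUniq b1 c1 b2 (c2.trans h)
        exact c2
    · rw [C.dl_I hX T a y, C.dl_I hX W a y, hdd']
      obtain ⟨c1, c2⟩ := Int_inv hD hC (hA i le_rfl) hT hW h ha
      constructor
      · rintro ⟨_, _, h3, h4, S, s1, s2⟩
        refine ⟨hW, hD.RMono h ha, h3, c1.1 h4, S, (Home.inv hD hC (K_over hD hC hT) h ha).1 s1, ?_⟩
        rw [← c2 (c1.1 h4)]
        exact s2
      · rintro ⟨_, _, h3, h4, S, s1, s2⟩
        refine ⟨hT, ha, h3, c1.2 h4, S, (Home.inv hD hC (K_over hD hC hT) h ha).2 s1, ?_⟩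
        rw [c2 h4]
        exact s2

/-- the labels of a state in the class do not promise decided values -/
theorem K_dl {i : ι} {T : τ} (h : C.K i T) {l : Λ} {S : τ} {a y : ρ} (hp : D.PL T l S a y) {j : ι}
    (hj : j < i) : ¬ C.dl j T a y := fun hd =>
  ((C.K_iff i T).1 h).2 l S a y hp ⟨j, hj, T, (hD.plLab hp).2.2.1, K_le hD hC h hj.le, hd⟩

/-- base change -/
def BC (C : Chn D ι) (i : ι) : Prop := ∀ z ≤ i, C.Stable z → ∀ S T S' W, Amal D S T S' W → C.K i T →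
  C.K z S' → C.Ov z S → C.Free i (D.lab S) z → C.K i W

/-- good labels remain good -/
theorem good_label {i : ι} (hA : ∀ j, j < i → C.AM j) (hBC : ∀ j < i, BC C j) {z : ι} (hz : z ≤ i)
    (hzA : C.AM z) (hst : C.Stable z) {S : τ} {a y : ρ} (ha : a ∈ D.R S) (hy : y ∈ D.R S)
    (hf : C.Free i (C.bl z ∪ D.lab S) z) (hg : ¬ C.BAD z S a y) : ¬ C.BAD i S a y := by
  rintro ⟨j, hj, T, hST, hKT, hdl⟩
  by_cases hjz : j < z
  · exact hg ⟨j, hjz, T, hST, hKT, hdl⟩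
  rw [not_lt] at hjz
  have hj' : ∀ k ≤ j, C.AM k := fun k hk => hA k (hk.trans_lt hj)
  -- the substate generated by the base and `S`
  obtain ⟨Bz, bz1, bz2⟩ := (K_over hD hC hKT).le hC hjz
  obtain ⟨S1, s1, s2, s3, s4⟩ := hD.join bz2 hST
  have hS1z : C.K z S1 := K_sub hD hC (K_le hD hC hKT hjz) s1 ⟨Bz, bz1, s2⟩
  have hlab : D.lab S1 = C.bl z ∪ D.lab S := by rw [s4, hC.baseLab bz1]
  have ha1 : a ∈ D.R S1 := hD.RMono s3 ha
  have hy1 : y ∈ D.R S1 := hD.RMono s3 hy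
  -- not decided before
  have hnd : ∀ y', ¬ C.dd z S1 a y' := by
    rintro y' ⟨k, hk, hd⟩
    have hd' := (dl_inv hD hC k (fun k' hk' => hj' k' (hk'.trans (hk.le.trans hjz)))
      (K_le hD hC hS1z hk.le) (K_le hD hC hKT (hk.le.trans hjz)) s1 ha1).1 hd
    exact (dl_K hD hC hdl).2.2 y' ⟨k, hk.trans_le hjz, hd'⟩
  have hnI : ¬ C.Int z S1 a := (hst S1 hS1z a ha1).resolve_left fun ⟨y', hy'⟩ => hnd y' hy'
  have hfree : C.Free j (D.lab S1) z := by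
    rw [hlab]
    exact fun η h1 h2 => hf η h1 (h2.trans hj)
  by_cases hX : C.isX j
  · obtain ⟨_, _, _, B, b1, b2, b3⟩ := (C.dl_X hX T a y).1 hdl
    obtain ⟨M, m1, m2, m3⟩ := hD.meet b2 hST
    have hyM : y ∈ D.R M := hD.RMeet b2 hST m1 m2 m3 y (hC.exR b1 b3).2 hy
    refine hf j hjz hj hX B b1 M m1 ?_ a y b3 hyM
    rw [m3]
    exact fun x hx => Or.inr hx.2
  · obtain ⟨_, _, _, hI, _⟩ := (C.dl_I hX T a y).1 hdl
    have hyU : y ∈ C.U j T a := dl_U hD hC (hj' j le_rfl) hX hdl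
    by_cases hyU1 : y ∈ C.U z S1 a
    · -- a fresh safe value
      have h1 : ∃ T', S1 ≤ T' ∧ C.K z T' ∧ ∃ y' ∈ C.U z T' a, y' ∉ D.R S1 := by
        by_contra hcon
        refine hnI ⟨⟨y, hyU1⟩, fun T' t1 t2 y' hy' => ?_⟩
        by_contra hn
        exact hcon ⟨T', t1, t2, y', hy', hn⟩
      obtain ⟨T', t1, t2, hs⟩ := h1
      obtain ⟨T2, W, hm, h4, y2, h5, h6⟩ := hzA.safe S1 T T' a s1 t1 ⟨Bz, bz1, s2⟩ t2 ha1 hs
      have hW : C.K j W := hBC j hj z hjz hst S1 T T2 W hm hKT h4 ⟨Bz, bz1, s2⟩ hfree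
      have h7 : y2 ∈ C.U j W a := by
        refine ⟨hD.RMono hm.h2 h5.1, fun W' w1 w2 w3 => ?_⟩
        exact h5.2 W' (hm.h2.trans w1) (K_le hD hC w2 hjz) w3
      exact h6 (Amal_disj hD hm (hI.2 W hm.h1 hW h7) h5.1)
    · -- `y` can be kicked
      have h1 : ∃ T', S1 ≤ T' ∧ C.K z T' ∧ D.Kick T' a y := by
        by_contra hcon
        refine hyU1 ⟨hy1, fun T' t1 t2 t3 => hcon ⟨T', t1, t2, t3⟩⟩
      obtain ⟨T', t1, t2, t3⟩ := h1
      obtain ⟨T2, W, hm, h4, h5⟩ := hzA.kick S1 T T' a y s1 t1 ⟨Bz, bz1, s2⟩ t2 ha1 hy1 t3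
      have hW : C.K j W := hBC j hj z hjz hst S1 T T2 W hm hKT h4 ⟨Bz, bz1, s2⟩ hfree
      exact hyU.2 W hm.h1 hW (hD.kickMono hm.h2 h5)

/-- the base change lemma -/
theorem bc (i : ι) (hA : ∀ j ≤ i, C.AM j) : BC C i := by
  induction i using WellFoundedLT.induction with
  | _ i ih =>
    intro z hz hst S T S' W hm hT hS' hoS hf
    have hBC : ∀ j < i, BC C j := fun j hj => ih j hj fun k hk => hA k (hk.trans hj.le)
    have hT' := (C.K_iff i T).1 hT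
    have hS'' := (C.K_iff z S').1 hS'
    rw [C.K_iff]
    refine ⟨hT'.1.mono hm.h1, fun l S1 a y hp => ?_⟩
    obtain ⟨p1, p2, p3, p4, p5⟩ := hD.plLab hp
    have hl := p1
    rw [hm.u] at hl
    by_cases hlT : l ∈ D.lab T
    · exact hT'.2 l S1 a y ((hD.plMono hm.h1 hlT).2 hp)
    · have hlS : l ∈ D.lab S' := hl.resolve_left hlT
      have hp' := (hD.plMono hm.h2 hlS).2 hp
      obtain ⟨q1, q2, q3, q4, q5⟩ := hD.plLab hp'
      refine good_label hD hC (fun j hj => hA j hj.le) hBC hz (hA z hz) hst p4 p5 ?_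
        (hS''.2 l S1 a y hp')
      intro η h1 h2 h3 B hB X hX hXl
      refine hf η h1 h2 h3 B hB X hX ?_
      intro x hx
      rcases hXl hx with h | h
      · obtain ⟨Bz, c1, c2⟩ := hoS
        rw [← hC.baseLab c1] at h
        exact hD.labMono c2 h
      · rw [← hm.i]
        refine ⟨?_, hD.labMono q3 h⟩
        obtain ⟨Bi, c1, c2⟩ := hT'.1
        obtain ⟨B', c3, c4⟩ := hC.baseMono h2.le c1
        have : D.lab B' = D.lab B := by rw [hC.baseLab c4, hC.baseLab hB]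
        have hxB : x ∈ D.lab B := hD.labMono hX hx
        rw [← this] at hxB
        exact hD.labMono (c3.trans c2) hxB

end Chn

end UN
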