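import Pool.Agent.H75.UN.Abs

/-!
# MP_f6fd33_lc: abstract part, second file: stable indices, good bases, uniformization
-/

set_option linter.unusedVariables false
set_option linter.unusedSectionVars false

namespace UN

open Set

namespace Chn

variable {τ Λ ρ : Type*} [PartialOrder τ] [WellFoundedLT τ] {D : Sys τ Λ ρ}
  {ι : Type*} [LinearOrder ι] [WellFoundedLT ι] {C : Chn D ι}

/-- after a stable index nothing changes until the next external index -/
theorem stable_up {z : ι} (hst : C.Stable z) (j : ι) (hzj : z ≤ j)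
    (hX : ∀ η, z ≤ η → η ≤ j → ¬ C.isX η) (hb : ∀ η, z ≤ η → η ≤ j → ∀ B, C.base η B ↔ C.base z B) :
    (∀ T, C.K j T ↔ C.K z T) ∧ (∀ T a y, ¬ C.dl j T a y) ∧ (∀ T a y, C.dd j T a y ↔ C.dd z T a y) ∧
      (∀ S a y, C.BAD j S a y ↔ C.BAD z S a y) ∧ ∀ T a, C.U j T a = C.U z T a := by
  induction j using WellFoundedLT.induction with
  | _ j ih =>
    have h1 : ∀ j', z ≤ j' → j' < j → ∀ T a y, ¬ C.dl j' T a y := fun j' h h' =>
      (ih j' h' h (fun η a b => hX η a (b.trans h'.le)) fun η a b => hb η a (b.trans h'.le)).2.1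
    have hB : ∀ S a y, C.BAD j S a y ↔ C.BAD z S a y := by
      intro S a y
      constructor
      · rintro ⟨j', h', T, t1, t2, t3⟩
        by_cases hz : j' < z
        · exact ⟨j', hz, T, t1, t2, t3⟩
        · exact absurd t3 (h1 j' (not_lt.1 hz) h' T a y)
      · rintro ⟨j', h', r⟩
        exact ⟨j', h'.trans_le hzj, r⟩
    have hd : ∀ T a y, C.dd j T a y ↔ C.dd z T a y := by
      intro T a y
      constructor
      · rintro ⟨j', h', t3⟩
        by_cases hz : j' < z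
        · exact ⟨j', hz, t3⟩
        · exact absurd t3 (h1 j' (not_lt.1 hz) h' T a y)
      · rintro ⟨j', h', r⟩
        exact ⟨j', h'.trans_le hzj, r⟩
    have hO : ∀ T, C.Ov j T ↔ C.Ov z T := fun T =>
      exists_congr fun B => and_congr_left fun _ => hb j hzj le_rfl B
    have hK : ∀ T, C.K j T ↔ C.K z T := by
      intro T
      rw [C.K_iff, C.K_iff, hO T]
      refine and_congr_right fun _ => ?_
      simp only [hB]
    have hU : ∀ T a, C.U j T a = C.U z T a := by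
      intro T a
      ext y
      simp only [U, mem_ofPred_eq, hK]
    have hI : ∀ T a, C.Int j T a ↔ C.Int z T a := by
      intro T a
      simp only [Int, hU, hK]
    refine ⟨hK, ?_, hd, hB, hU⟩
    intro T a y hdl
    rw [C.dl_I (hX j hzj le_rfl)] at hdl
    obtain ⟨d1, d2, d3, d4, _⟩ := hdl
    rcases hst T ((hK T).1 d1) a d2 with ⟨y', hy'⟩ | h
    · exact d3 y' ((hd T a y').2 hy')
    · exact h ((hI T a).1 d4)

/-- the labels of the bases are introduced at stable indices -/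
def Intro (C : Chn D ι) : Prop := ∀ i B, C.base i B → ∀ l S a y, D.PL B l S a y → ∃ z ≤ i,
  C.Stable z ∧ ¬ C.BAD z S a y ∧ ∀ i', C.Free i' (C.bl z ∪ D.lab S) z

/-- MC: the bases are in the classes -/
theorem base_K (hD : D.Ok) (hC : C.Ok) (hA : ∀ i, C.AM i) (hI : C.Intro) {i : ι} {B : τ}
    (hB : C.base i B) : C.K i B := by
  rw [C.K_iff]
  refine ⟨⟨B, hB, le_rfl⟩, fun l S a y hp => ?_⟩
  obtain ⟨z, hz, h1, h2, h3⟩ := hI i B hB l S a y hp
  obtain ⟨p1, p2, p3, p4, p5⟩ := hD.plLab hp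
  exact good_label hD hC (fun j _ => hA j) (fun j _ => bc hD hC j fun k _ => hA k) hz (hA z) h1 p4
    p5 (h3 i) h2

/-- the decided values on bases are never kicked and never promised; uniformization -/
theorem unif (hD : D.Ok) (hC : C.Ok) (hA : ∀ i, C.AM i) (hI : C.Intro) (Bs : ι → τ)
    {P : ι → Prop} (hP : ∀ i, P i → ∃ j, i < j ∧ P j)
    (hB : ∀ i, P i → C.base i (Bs i)) (hmono : ∀ i j, P i → P j → i ≤ j → Bs i ≤ Bs j)
    (hPd : ∀ i j, P j → i ≤ j → P i)
    (hX : ∀ i a y, P i → C.isX i → C.dl i (Bs i) a y → ∀ j, P j → i ≤ j → ¬ D.Kick (Bs j) a y)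
    (hc : ∀ i a y y0, P i → C.dd i (Bs i) a y0 → a ∈ D.R (Bs i) → y ∈ D.R (Bs i) → y ≠ y0 →
      ∃ j, P j ∧ ∃ l S, D.PL (Bs j) l S a y)
    (hd : ∀ i a y, P i → a ∈ D.R (Bs i) → y ∈ D.R (Bs i) →
      (∃ j, P j ∧ ∃ y0, C.dd j (Bs j) a y0) ∨ ∃ j, P j ∧ D.Kick (Bs j) a y) :
    ∀ a, (∃ i, P i ∧ a ∈ D.R (Bs i)) →
      (∀ y y', (∃ i, P i ∧ y ∈ D.R (Bs i)) → (∃ i, P i ∧ y' ∈ D.R (Bs i)) →
        (∀ j, P j → ¬ D.Kick (Bs j) a y) → (¬ ∃ j, P j ∧ ∃ l S, D.PL (Bs j) l S a y) →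
        (∀ j, P j → ¬ D.Kick (Bs j) a y') → (¬ ∃ j, P j ∧ ∃ l S, D.PL (Bs j) l S a y') → y = y') ∧
      ((∃ y, (∃ i, P i ∧ y ∈ D.R (Bs i)) ∧ ∀ j, P j → ¬ D.Kick (Bs j) a y) →
        ∃ y, (∃ i, P i ∧ y ∈ D.R (Bs i)) ∧ (∀ j, P j → ¬ D.Kick (Bs j) a y) ∧
          ¬ ∃ j, P j ∧ ∃ l S, D.PL (Bs j) l S a y) := by
  intro a ha
  obtain ⟨ia, pa, ha⟩ := ha
  have hK : ∀ i, P i → C.K i (Bs i) := fun i pi => base_K hD hC hA hI (hB i pi)
  have hK' : ∀ i j, P i → P j → i ≤ j → C.K i (Bs j) := fun i j pi pj hij =>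
    K_le hD hC (hK j pj) hij
  have hmax : ∀ i j, P i → P j → P (max i j) := fun i j pi pj => by
    rcases le_total i j with h | h
    · rwa [max_eq_right h]
    · rwa [max_eq_left h]
  by_cases hdec : ∃ j, P j ∧ ∃ y0, C.dd j (Bs j) a y0
  · obtain ⟨j, pj, y0, i0, hi0, hdl⟩ := hdec
    have pi0 : P i0 := hPd i0 j pj hi0.le
    obtain ⟨d1, d2, d3⟩ := dl_K hD hC hdl
    have hy0 : y0 ∈ D.R (Bs j) := dl_R hD hC (hA i0) hdl
    -- decided on all larger bases
    have hbig : ∀ k, P k → j ≤ k → C.dl i0 (Bs k) a y0 := fun k pk hk =>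
      (dl_inv hD hC i0 (fun k _ => hA k) d1 (hK' i0 k pi0 pk (hi0.le.trans hk)) (hmono j k pj pk hk)
        d2).1 hdl
    have hnk : ∀ k, P k → ¬ D.Kick (Bs k) a y0 := by
      intro k pk hkick
      set m := max j k with hm
      have pm : P m := hmax j k pj pk
      have hkm : D.Kick (Bs m) a y0 := hD.kickMono (hmono k m pk pm (le_max_right j k)) hkick
      have h1 := hbig m pm (le_max_left j k)
      by_cases hXi : C.isX i0
      · -- the decision is made on the base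
        have h2 : C.dl i0 (Bs i0) a y0 := by
          obtain ⟨_, _, _, B, b1, b2, b3⟩ := (C.dl_X hXi _ _ _).1 h1
          have : B = Bs i0 := hC.baseUniq b1 (hB i0 pi0) b2
            (hmono i0 m pi0 pm (hi0.le.trans (le_max_left j k)))
          subst this
          exact (dl_inv hD hC i0 (fun k _ => hA k) (hK i0 pi0) (hK' i0 m pi0 pm
            (hi0.le.trans (le_max_left j k))) (hmono i0 m pi0 pm (hi0.le.trans (le_max_left j k)))
            (hC.exR b1 b3).1).2 h1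
        exact hX i0 a y0 pi0 hXi h2 m pm (hi0.le.trans (le_max_left j k)) hkm
      · exact (dl_U hD hC (hA i0) hXi hdl).2 (Bs m) (hmono j m pj pm (le_max_left j k))
          (hK' i0 m pi0 pm (hi0.le.trans (le_max_left j k))) hkm
    have hnp : ¬ ∃ j, P j ∧ ∃ l S, D.PL (Bs j) l S a y0 := by
      rintro ⟨k, pk, l, S, hp⟩
      set m := max j k with hm
      have pm : P m := hmax j k pj pk
      have hp' : D.PL (Bs m) l S a y0 :=
        (hD.plMono (hmono k m pk pm (le_max_right j k)) (hD.plLab hp).1).1 hp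
      exact K_dl hD hC (hK m pm) hp' (hi0.trans_le (le_max_left j k)) (hbig m pm (le_max_left j k))
    have hoth : ∀ y, (∃ i, P i ∧ y ∈ D.R (Bs i)) → y ≠ y0 → ∃ j, P j ∧ ∃ l S, D.PL (Bs j) l S a y := by
      rintro y ⟨i, pi, hy⟩ hne
      set m := max j i with hm
      have pm : P m := hmax j i pj pi
      refine hc m a y y0 pm ⟨i0, hi0.trans_le (le_max_left j i), hbig m pm (le_max_left j i)⟩
        (hD.RMono (hmono j m pj pm (le_max_left j i)) d2)
        (hD.RMono (hmono i m pi pm (le_max_right j i)) hy) hne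
    refine ⟨fun y y' hy hy' _ h2 _ h4 => ?_, fun _ => ⟨y0, ⟨j, pj, hy0⟩, hnk, hnp⟩⟩
    have e1 : y = y0 := by
      by_contra hne
      exact h2 (hoth y hy hne)
    have e2 : y' = y0 := by
      by_contra hne
      exact h4 (hoth y' hy' hne)
    rw [e1, e2]
  · have hno : ∀ y, (∃ i, P i ∧ y ∈ D.R (Bs i)) → ∃ j, P j ∧ D.Kick (Bs j) a y := by
      rintro y ⟨i, pi, hy⟩
      set m := max ia i with hm
      have pm : P m := hmax ia i pa pi
      rcases hd m a y pm (hD.RMono (hmono ia m pa pm (le_max_left ia i)) ha)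
        (hD.RMono (hmono i m pi pm (le_max_right ia i)) hy) with h | h
      · exact absurd h hdec
      · exact h
    refine ⟨fun y y' hy _ h1 _ _ _ => ?_, ?_⟩
    · obtain ⟨j, pj, hj⟩ := hno y hy
      exact absurd hj (h1 j pj)
    · rintro ⟨y, hy, h1⟩
      obtain ⟨j, pj, hj⟩ := hno y hy
      exact absurd hj (h1 j pj)

end Chn

end UN
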